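import Pool.Agent.K1H79.SX.Stm
import Pool.Agent.K1H69.Q3.MOM

/-! # Project TW (helper79), piece CYC: cyclic cubic extensions

Adaptation of the cyclic case of `Pool/Agent/K1H40/SX/Ger.lean` (helper40). -/

set_option autoImplicit false

namespace Pool.Agent.K1H24.TW

open NumberField Pool.Agent.K1H79.SX Module

theorem discr_abs_ge (F : Type) [Field F] [NumberField F] : 1 ≤ (discr F).natAbs :=
  Nat.one_le_iff_ne_zero.2 (Int.natAbs_ne_zero.2 (discr_ne_zero F))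

theorem discr_cast (F : Type) [Field F] [NumberField F] : |(discr F : ℝ)| = ((discr F).natAbs : ℝ) := by
  rw [Nat.cast_natAbs]; push_cast; rfl

theorem cyc_core (hC3 : S_C3) (hRAM : S_RAM) (hTRIV : S_TRIV) : ∀ m : ℕ, ∀ ε : ℝ, 0 < ε →
    ∃ C : ℝ, 0 < C ∧
    ∀ (F L : Type) [Field F] [NumberField F] [Field L] [NumberField L] [Algebra F L] [IsGalois F L],
      Module.finrank ℚ F = m → Module.finrank F L = 3 →
        (h3 L : ℝ) ≤ C * |(discr L : ℝ)| ^ ε * |(discr F : ℝ)| ^ C := by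
  intro m ε hε
  classical
  obtain ⟨C0, hC0, hC0'⟩ := hTRIV m
  obtain ⟨C1, hC1, hC1'⟩ := _root_.Pool.Agent.K1H69.Q3.fac_bound ((54 : ℝ) ^ m)
    (one_le_pow₀ (by norm_num)) 0 ε hε
  set C : ℝ := 3 + 3 ^ (2 * m) * C0 ^ 3 * C1 with hC
  have p2 : (0 : ℝ) < 3 ^ (2 * m) * C0 ^ 3 * C1 := by positivity
  refine ⟨C, by positivity, fun F L _ _ _ _ _ _ hF hFL => ?_⟩
  obtain ⟨hfin, hcard, hprod⟩ := hRAM F L
  set d : ℝ := |(discr F : ℝ)| with hd
  set D : ℝ := |(discr L : ℝ)| with hD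
  have hd1 : 1 ≤ d := by rw [hd, discr_cast]; exact_mod_cast discr_abs_ge F
  have hD1 : 1 ≤ D := by rw [hD, discr_cast]; exact_mod_cast discr_abs_ge L
  have hdpow : d ^ 3 ≤ d ^ C := by
    rw [← Real.rpow_natCast]
    refine Real.rpow_le_rpow_of_exponent_le hd1 ?_
    push_cast
    linarith
  set t := Nat.card (RamS F L) with ht
  have h54 : (54 : ℝ) ^ t ≤ C1 * D ^ ε := by
    have h1 := hC1' (discr L).natAbs (by have := discr_abs_ge L; omega)
    rw [pow_zero, mul_one, ← pow_mul] at h1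
    rw [hF] at hcard
    refine le_trans (pow_le_pow_right₀ (by norm_num) hcard) ?_
    rw [hD, discr_cast]
    exact h1
  have hDe : 0 < D ^ ε := Real.rpow_pos_of_pos (by linarith) _
  have h1 := hC3 F L hFL
  rw [hF] at h1
  have h2 : (h3 L : ℝ) ≤ 3 ^ (2 * m) * 3 ^ (2 * t) * (h3 F : ℝ) ^ 3 := by exact_mod_cast h1
  have h3' : (h3 F : ℝ) ≤ C0 * d := hC0' F hF
  have h4 : (3 : ℝ) ^ (2 * t) ≤ C1 * D ^ ε := by
    refine le_trans ?_ h54
    rw [pow_mul]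
    exact pow_le_pow_left₀ (by norm_num) (by norm_num) _
  calc (h3 L : ℝ) ≤ 3 ^ (2 * m) * 3 ^ (2 * t) * (h3 F : ℝ) ^ 3 := h2
    _ ≤ 3 ^ (2 * m) * (C1 * D ^ ε) * (C0 * d) ^ 3 := by gcongr
    _ = (3 ^ (2 * m) * C0 ^ 3 * C1) * D ^ ε * d ^ 3 := by ring
    _ ≤ C * D ^ ε * d ^ C := by
        gcongr
        linarith

end Pool.Agent.K1H24.TW
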