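import Pool.Agent.K1H79.TW.GStm
import Pool.Agent.K1H24.TW.CycCore

/-! # Project TW (helper79), piece CYC: cyclic cubic extensions -/

set_option autoImplicit false

namespace Pool.Agent.K1H24.TW

open Pool.Agent.K1H79.TW

theorem t_CYCof : S_CYCof := by
  intro hC3 hRAM hTRIV m ε hε
  obtain ⟨C, hC, h⟩ := cyc_core hC3 hRAM hTRIV m ε hε
  exact ⟨C, hC, fun F L _ _ _ _ _ _ hF hL => h F L hF hL⟩

end Pool.Agent.K1H24.TW
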